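import Pool.Agent.FleaC.Quart

set_option autoImplicit false

namespace Pool.Agent.FleaC.Variants.QuarticGrowth

open Pool.Agent.FleaC

/-- For `N ≥ 18` a non-degenerate primitive triangle with sides at most `N` misses an area `D / 2`
with `D` odd and `D ≥ N ^ 4 / 180000`; in particular the largest missed area grows at least like
`N ^ 4`. -/
theorem quartic_growth :
    (∀ N : ℕ, 18 ≤ N → ∃ A B C : GaussianInt, Adm false A B C ∧ SidesLe N A B C ∧
      ∃ D : ℕ, ¬ Occurs A B C D ∧ Odd D ∧ N ^ 4 ≤ 180000 * D) ∧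
    (∀ deg : Bool, ConjC deg → ∀ N : ℕ, 18 ≤ N → N ^ 4 ≤ 180000 * f2 deg N) := by
  constructor
  · intro N hN
    obtain ⟨A, B, C, h1, h2, D, h3, h4, h5⟩ := quartic N hN
    exact ⟨A, B, C, h1, h2, D, h3.1, Nat.odd_iff.2 h4, h5⟩
  · intro deg hC N hN
    obtain ⟨A, B, C, h1, h2, D, h3, h4, h5⟩ := quartic N hN
    have h1' : Adm deg A B C := by
      refine ⟨h1.1, h1.2.1, ?_⟩
      rcases h1.2.2 with h | h
      · exact absurd h (by simp)
      · exact Or.inr h
    have h6 : D ≤ f2 deg N := bad_le hC ⟨A, B, C, h1', h2, h3⟩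
    exact h5.trans (Nat.mul_le_mul_left _ h6)

end Pool.Agent.FleaC.Variants.QuarticGrowth
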